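import Pool.Agent.H181R5.NLT.Stmts

/-!
# Task PATH: short paths in a highly connected digraph
-/

set_option autoImplicit false

namespace Pool.Agent.Helper896.NLTPath

open Finset Pool.Agent.H181R5.NLH Pool.Agent.H181R5.NLT

open Classical in
/-- the out-neighbours in `T` of the vertices of `R` -/
noncomputable def nxt {V : Type} (D : V → V → Prop) (T R : Finset V) : Finset V :=
  T.filter fun v => ∃ u ∈ R, D u v

theorem mem_nxt {V : Type} (D : V → V → Prop) (T R : Finset V) (v : V) :
    v ∈ nxt D T R ↔ v ∈ T ∧ ∃ u ∈ R, D u v := by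
  classical
  unfold nxt
  rw [Finset.mem_filter]

/-- breadth-first search -/
noncomputable def RR {V : Type} [DecidableEq V] (D : V → V → Prop) (T : Finset V) (a : V) :
    ℕ → Finset V
  | 0 => {a}
  | n + 1 => RR D T a n ∪ nxt D T (RR D T a n)

variable {V : Type} [DecidableEq V] (D : V → V → Prop) (T : Finset V) (a : V)

theorem RR_succ (n : ℕ) : RR D T a (n + 1) = RR D T a n ∪ nxt D T (RR D T a n) := rfl

theorem RR_sub (ha : a ∈ T) (n : ℕ) : RR D T a n ⊆ T := by
  induction n with
  | zero =>
    show ({a} : Finset V) ⊆ T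
    exact Finset.singleton_subset_iff.2 ha
  | succ n ih =>
    rw [RR_succ]
    refine Finset.union_subset ih fun v hv => ((mem_nxt D T _ v).1 hv).1

theorem RR_base (n : ℕ) : a ∈ RR D T a n := by
  induction n with
  | zero => exact Finset.mem_singleton_self a
  | succ n ih => rw [RR_succ]; exact Finset.mem_union_left _ ih

theorem path_aux : ∀ (n : ℕ) (v : V), v ∈ RR D T a n → (∀ m, m < n → v ∉ RR D T a m) →
    ∃ p : ℕ → V, p 0 = a ∧ p n = v ∧ (∀ t, t < n → D (p t) (p (t + 1))) ∧
      ∀ t, t ≤ n → p t ∈ RR D T a t ∧ ∀ m, m < t → p t ∉ RR D T a m := by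
  intro n
  induction n with
  | zero =>
    intro v hv _
    have hva : v = a := Finset.mem_singleton.1 hv
    refine ⟨fun _ => a, rfl, hva.symm, fun t ht => absurd ht (Nat.not_lt_zero t), fun t ht => ?_⟩
    have h0 : t = 0 := Nat.le_zero.1 ht
    subst h0
    exact ⟨Finset.mem_singleton_self a, fun m hm => absurd hm (Nat.not_lt_zero m)⟩
  | succ n ih =>
    intro v hv hmin
    have hvn : v ∉ RR D T a n := hmin n (Nat.lt_succ_self n)
    have hv2 : v ∈ nxt D T (RR D T a n) := by
      rw [RR_succ] at hv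
      exact (Finset.mem_union.1 hv).resolve_left hvn
    obtain ⟨hvT, u, hu, huv⟩ := (mem_nxt D T _ v).1 hv2
    have humin : ∀ m, m < n → u ∉ RR D T a m := by
      intro m hm hum
      refine hmin (m + 1) (by omega) ?_
      rw [RR_succ]
      exact Finset.mem_union_right _ ((mem_nxt D T _ v).2 ⟨hvT, u, hum, huv⟩)
    obtain ⟨p, hp0, hpn, harc, hlev⟩ := ih u hu humin
    refine ⟨fun t => if t ≤ n then p t else v, ?_, ?_, ?_, ?_⟩
    · show (if 0 ≤ n then p 0 else v) = a
      rw [if_pos (Nat.zero_le n)]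
      exact hp0
    · show (if n + 1 ≤ n then p (n + 1) else v) = v
      rw [if_neg (by omega)]
    · intro t ht
      show D (if t ≤ n then p t else v) (if t + 1 ≤ n then p (t + 1) else v)
      by_cases h : t < n
      · rw [if_pos (by omega), if_pos (by omega)]
        exact harc t h
      · have htn : t = n := by omega
        subst htn
        rw [if_pos le_rfl, if_neg (by omega), hpn]
        exact huv
    · intro t ht
      show (if t ≤ n then p t else v) ∈ RR D T a t ∧
        ∀ m, m < t → (if t ≤ n then p t else v) ∉ RR D T a m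
      by_cases h : t ≤ n
      · rw [if_pos h]
        exact hlev t h
      · have htn : t = n + 1 := by omega
        subst htn
        rw [if_neg h]
        exact ⟨hv, hmin⟩

end Pool.Agent.Helper896.NLTPath

namespace Pool.Agent.Helper896

open Finset Pool.Agent.H181R5.NLH Pool.Agent.H181R5.NLT NLTPath

/-- Task PATH -/
theorem taskPath : TaskPath := by
  intro V _ _ D S U k L a b hK hS hUS hU ha hb hab
  set T := S \ U with hT
  have hsub : ∀ n, RR D T a n ⊆ T := RR_sub D T a ha
  have hTS : T ⊆ S := Finset.sdiff_subset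
  have hstep : ∀ i, b ∉ RR D T a (i + 1) →
      (RR D T a i).card + k / 2 ≤ (RR D T a (i + 1)).card := by
    intro i hbi
    set B := RR D T a i with hB
    set R' := RR D T a (i + 1) with hR'
    have hBR : B ⊆ R' := by
      rw [hR', RR_succ]
      exact Finset.subset_union_left
    set A := T \ R' with hA
    have hle : k ≤ (S \ (A ∪ B)).card := by
      by_contra hlt
      have hlt' : (S \ (A ∪ B)).card < k := not_le.1 hlt
      obtain ⟨x, hx, y, hy, hxy⟩ := hK A B (Finset.sdiff_subset.trans hTS) ((hsub i).trans hTS)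
        (Finset.disjoint_left.2 fun z hz hz' => (Finset.mem_sdiff.1 hz).2 (hBR hz'))
        ⟨b, Finset.mem_sdiff.2 ⟨hb, hbi⟩⟩ ⟨a, RR_base D T a i⟩ hlt'
      obtain ⟨hyT, hyR⟩ := Finset.mem_sdiff.1 hy
      apply hyR
      rw [hR', RR_succ]
      exact Finset.mem_union_right _ ((mem_nxt D T _ y).2 ⟨hyT, x, hx, hxy⟩)
    have hss : S \ (A ∪ B) ⊆ U ∪ (R' \ B) := by
      intro z hz
      obtain ⟨hzS, hzn⟩ := Finset.mem_sdiff.1 hz
      rw [Finset.mem_union, not_or] at hzn
      by_cases hzU : z ∈ U
      · exact Finset.mem_union_left _ hzU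
      · apply Finset.mem_union_right
        rw [Finset.mem_sdiff]
        refine ⟨?_, hzn.2⟩
        by_contra hzR
        exact hzn.1 (Finset.mem_sdiff.2 ⟨Finset.mem_sdiff.2 ⟨hzS, hzU⟩, hzR⟩)
    have h2 : (S \ (A ∪ B)).card ≤ U.card + (R' \ B).card :=
      (Finset.card_le_card hss).trans (Finset.card_union_le _ _)
    have h3 : (R' \ B).card + B.card = R'.card := Finset.card_sdiff_add_card_eq_card hBR
    omega
  have hbL : ∃ n, n ≤ L ∧ b ∈ RR D T a n := by
    by_contra hcon
    have hcon' : ∀ n, n ≤ L → b ∉ RR D T a n := fun n hn hbn => hcon ⟨n, hn, hbn⟩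
    have hg : ∀ n, n ≤ L → 1 + n * (k / 2) ≤ (RR D T a n).card := by
      intro n
      induction n with
      | zero =>
        intro _
        show 1 + 0 * (k / 2) ≤ ({a} : Finset V).card
        rw [Finset.card_singleton, Nat.zero_mul]
      | succ n ih =>
        intro hn
        have h1 := ih (by omega)
        have h2 := hstep n (hcon' (n + 1) hn)
        have e : (n + 1) * (k / 2) = n * (k / 2) + k / 2 := Nat.succ_mul _ _
        rw [e]
        omega
    have h1 := hg L le_rfl
    have h2 : (RR D T a L).card ≤ S.card := Finset.card_le_card ((hsub L).trans hTS)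
    have h3 : k / 2 * L = L * (k / 2) := Nat.mul_comm _ _
    rw [h3] at hS
    omega
  classical
  have hex : ∃ n, b ∈ RR D T a n := by
    obtain ⟨n, -, hn⟩ := hbL
    exact ⟨n, hn⟩
  obtain ⟨n0, hn0, hbn0⟩ := hbL
  obtain ⟨p, hp0, hpn, harc, hlev⟩ := path_aux D T a (Nat.find hex) b (Nat.find_spec hex)
    (fun m hm => Nat.find_min hex hm)
  refine ⟨Nat.find hex, p, ?_, (Nat.find_min' hex hbn0).trans hn0, hp0, hpn, harc,
    fun t ht => hsub t (hlev t ht).1, ?_⟩
  · rw [Nat.one_le_iff_ne_zero]
    intro h0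
    rw [h0] at hpn
    exact hab (hp0.symm.trans hpn)
  · intro t t' ht ht' he
    rcases lt_trichotomy t t' with h | h | h
    · exact absurd (he ▸ (hlev t ht).1) ((hlev t' ht').2 t h)
    · exact h
    · exact absurd (he.symm ▸ (hlev t' ht').1) ((hlev t ht).2 t' h)

end Pool.Agent.Helper896
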